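import Mathlib

open Finset Filter

namespace Pool.Agent.Results.MP_5e019f_nt.LogFactor

/-- `m` is a perfect `d`-th power of a positive integer. -/
def IsPow (d m : ℕ) : Prop := ∃ x : ℕ, 0 < x ∧ m = x ^ d

/-- No product of `k` pairwise distinct elements of `A` is a perfect `d`-th power. -/
def AdmDistinct (k d : ℕ) (A : Finset ℕ) : Prop :=
  ∀ B : Finset ℕ, B ⊆ A → B.card = k → ¬ IsPow d (∏ a ∈ B, a)

/-- No product of `k` elements of `A`, repetitions allowed, is a perfect `d`-th power. -/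
def AdmRepeat (k d : ℕ) (A : Finset ℕ) : Prop :=
  ∀ a : Fin k → ℕ, (∀ i, a i ∈ A) → ¬ IsPow d (∏ i, a i)

open Classical in
/-- `F_{k,d}(n)`: the largest size of an admissible subset of `[n]` (distinct factors). -/
noncomputable def bigF (k d n : ℕ) : ℕ :=
  ((Icc 1 n).powerset.filter (AdmDistinct k d)).sup Finset.card

open Classical in
/-- `f_{k,d}(n)`: the largest size of an admissible subset of `[n]` (repetitions allowed). -/
noncomputable def smallF (k d n : ℕ) : ℕ :=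
  ((Icc 1 n).powerset.filter (AdmRepeat k d)).sup Finset.card

lemma sqf_unique {a b x y : ℕ} (ha : Squarefree a) (hb : Squarefree b) (hx : 0 < x) (hy : 0 < y)
    (h : a * x ^ 2 = b * y ^ 2) : a = b := by
  have ha0 := ha.ne_zero
  have hb0 := hb.ne_zero
  apply Nat.eq_of_factorization_eq ha0 hb0
  intro q
  have h1 := congrArg (fun n => n.factorization q) h
  simp only [Nat.factorization_mul ha0 (pow_pos hx 2).ne', Nat.factorization_mul hb0 (pow_pos hy 2).ne',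
    Nat.factorization_pow, Finsupp.add_apply, Finsupp.smul_apply, smul_eq_mul] at h1
  have h2 := ha.natFactorization_le_one q
  have h3 := hb.natFactorization_le_one q
  omega

lemma sum_inv_sq (x : ℕ) : ∑ d ∈ Icc 2 x, (1 / (d : ℝ) ^ 2) ≤ 3 / 4 := by
  have key : ∀ m : ℕ, ∑ d ∈ Icc 2 (m + 2), (1 / (d : ℝ) ^ 2) ≤ 3 / 4 - 1 / ((m : ℝ) + 2) := by
    intro m
    induction m with
    | zero => norm_num
    | succ m ih =>
      rw [show m + 1 + 2 = (m + 2) + 1 by ring, Finset.sum_Icc_succ_top (by omega)]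
      push_cast
      have : 1 / ((m : ℝ) + 2 + 1) ^ 2 ≤ 1 / ((m : ℝ) + 2) - 1 / ((m : ℝ) + 1 + 2) := by
        rw [div_sub_div _ _ (by positivity) (by positivity), div_le_div_iff₀ (by positivity) (by positivity)]
        nlinarith [(Nat.cast_nonneg m : (0 : ℝ) ≤ m)]
      linarith
  rcases Nat.lt_or_ge x 2 with h | h
  · rw [Finset.Icc_eq_empty (by omega)]; norm_num
  · obtain ⟨m, rfl⟩ := Nat.exists_eq_add_of_le' h
    have := key m
    have h2 : (0 : ℝ) ≤ 1 / ((m : ℝ) + 2) := by positivity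
    linarith

lemma sqf_count (x : ℕ) : (x : ℝ) / 4 ≤ ((Icc 1 x).filter Squarefree).card := by
  classical
  have h1 : (Icc 1 x).filter (fun r => ¬ Squarefree r) ⊆
      (Icc 2 x).biUnion (fun d => (Ioc 0 x).filter (fun r => d ^ 2 ∣ r)) := by
    intro r hr
    simp only [mem_filter, mem_Icc, mem_biUnion, mem_Ioc] at hr ⊢
    obtain ⟨⟨h1, h2⟩, h3⟩ := hr
    rw [Nat.squarefree_iff_prime_squarefree] at h3
    push Not at h3
    obtain ⟨q, hq, hd⟩ := h3
    refine ⟨q, ⟨hq.two_le, ?_⟩, ⟨by omega, h2⟩, by rw [sq]; exact hd⟩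
    have := Nat.le_of_dvd (by omega) hd
    nlinarith [hq.two_le]
  have h2 := (card_le_card h1).trans card_biUnion_le
  have h3 : ((∑ d ∈ Icc 2 x, ((Ioc 0 x).filter (fun r => d ^ 2 ∣ r)).card : ℕ) : ℝ) ≤ x * (3 / 4) := by
    push_cast
    refine le_trans ?_ (mul_le_mul_of_nonneg_left (sum_inv_sq x) (Nat.cast_nonneg x))
    rw [Finset.mul_sum]
    refine Finset.sum_le_sum fun d hd => ?_
    rw [Nat.Ioc_filter_dvd_card_eq_div, mul_one_div]
    exact_mod_cast Nat.cast_div_le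
  have h4 := Finset.card_filter_add_card_filter_not (s := Icc 1 x) Squarefree
  rw [Nat.card_Icc, Nat.add_sub_cancel] at h4
  have h5 : (((Icc 1 x).filter (fun r => ¬ Squarefree r)).card : ℝ) ≤ x * (3 / 4) :=
    le_trans (by exact_mod_cast h2) h3
  have h6 : (((Icc 1 x).filter Squarefree).card : ℝ) +
      ((Icc 1 x).filter (fun r => ¬ Squarefree r)).card = x := by exact_mod_cast h4
  linarith

/-- The index set of the pairs. -/
def T (K N : ℕ) : Finset (Σ _ : ℕ, ℕ × ℕ) :=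
  ((range K).filter Nat.Prime).sigma fun p => ((Icc 1 (p - 1)).filter Squarefree) ×ˢ Icc 1 (N / p ^ 2)

lemma mem_T {K N : ℕ} {z : Σ _ : ℕ, ℕ × ℕ} (h : z ∈ T K N) :
    z.1.Prime ∧ 0 < z.2.1 ∧ z.2.1 < z.1 ∧ Squarefree z.2.1 ∧ 0 < z.2.2 ∧ z.1 ^ 2 * z.2.2 ≤ N := by
  simp only [T, mem_sigma, mem_filter, mem_range, mem_product, mem_Icc] at h
  obtain ⟨⟨_, hp⟩, ⟨⟨h1, h2⟩, h3⟩, h4, h5⟩ := h
  have := hp.two_le
  refine ⟨hp, h1, by omega, h3, h4, ?_⟩
  rw [Nat.le_div_iff_mul_le (by positivity)] at h5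
  linarith

lemma key_inj {p r p' r' x y : ℕ} (hp : p.Prime) (hr : 0 < r) (hrp : r < p) (hs : Squarefree r)
    (hp' : p'.Prime) (hr' : 0 < r') (hrp' : r' < p') (hs' : Squarefree r') (hx : 0 < x) (hy : 0 < y)
    (h : p * r * x ^ 2 = p' * r' * y ^ 2) : p = p' ∧ r = r' ∧ x = y := by
  have c1 : Nat.Coprime p r := (Nat.Prime.coprime_iff_not_dvd hp).2 fun hd => by
    have := Nat.le_of_dvd hr hd; omega
  have c2 : Nat.Coprime p' r' := (Nat.Prime.coprime_iff_not_dvd hp').2 fun hd => by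
    have := Nat.le_of_dvd hr' hd; omega
  have s1 : Squarefree (p * r) := (Nat.squarefree_mul c1).2 ⟨hp.squarefree, hs⟩
  have s2 : Squarefree (p' * r') := (Nat.squarefree_mul c2).2 ⟨hp'.squarefree, hs'⟩
  have e := sqf_unique s1 s2 hx hy h
  have hpp : p = p' := by
    by_contra hne
    have d1 : p ∣ p' * r' := e ▸ Dvd.intro _ rfl
    have d2 : p' ∣ p * r := e ▸ Dvd.intro _ rfl
    rcases (Nat.Prime.dvd_mul hp).1 d1 with d | d
    · exact hne ((Nat.prime_dvd_prime_iff_eq hp hp').1 d)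
    rcases (Nat.Prime.dvd_mul hp').1 d2 with d' | d'
    · exact hne ((Nat.prime_dvd_prime_iff_eq hp' hp).1 d').symm
    have := Nat.le_of_dvd hr' d
    have := Nat.le_of_dvd hr d'
    omega
  subst hpp
  have hrr : r = r' := Nat.eq_of_mul_eq_mul_left hp.pos e
  subst hrr
  refine ⟨rfl, rfl, ?_⟩
  have := Nat.eq_of_mul_eq_mul_left (Nat.mul_pos hp.pos hr) h
  exact Nat.pow_left_injective (by norm_num) this

lemma card_T_le {K N n : ℕ} (hN : N ^ 2 ≤ n) {A : Finset ℕ} (hA : AdmDistinct 2 4 A) :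
    (T K N).card ≤ 2 * (Icc 1 n \ A).card := by
  classical
  let a : (Σ _ : ℕ, ℕ × ℕ) → ℕ := fun z => z.1 * z.2.1 * (z.1 * z.2.2) ^ 2
  let b : (Σ _ : ℕ, ℕ × ℕ) → ℕ := fun z => z.1 * z.2.1 * (z.2.1 * z.2.2) ^ 2
  have hba : ∀ z ∈ T K N, 0 < b z ∧ b z < a z ∧ a z ≤ n := by
    intro z hz
    obtain ⟨hp, hr, hrp, hs, ht, hN'⟩ := mem_T hz
    have hp0 := hp.pos
    refine ⟨by positivity, ?_, ?_⟩
    · apply Nat.mul_lt_mul_of_pos_left _ (by positivity)
      exact Nat.pow_lt_pow_left (Nat.mul_lt_mul_of_pos_right hrp ht) (by norm_num)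
    · calc a z ≤ z.1 * z.1 * (z.1 * z.2.2) ^ 2 :=
            Nat.mul_le_mul_right _ (Nat.mul_le_mul_left _ hrp.le)
        _ = (z.1 ^ 2 * z.2.2) ^ 2 := by ring
        _ ≤ N ^ 2 := Nat.pow_le_pow_left hN' 2
        _ ≤ n := hN
  have hcover : T K N ⊆ (T K N).filter (fun z => a z ∉ A) ∪ (T K N).filter (fun z => b z ∉ A) := by
    intro z hz
    simp only [mem_union, mem_filter, hz, true_and]
    by_contra hcon
    push Not at hcon
    obtain ⟨h0, hlt, _⟩ := hba z hz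
    obtain ⟨hp, hr, hrp, hs, ht, hN'⟩ := mem_T hz
    have hp0 := hp.pos
    refine hA {a z, b z} ?_ (card_pair hlt.ne') ⟨z.1 * z.2.1 * z.2.2, by positivity, ?_⟩
    · intro w hw
      simp only [mem_insert, mem_singleton] at hw
      rcases hw with rfl | rfl
      · exact hcon.1
      · exact hcon.2
    · rw [prod_pair hlt.ne']
      simp only [a, b]; ring
  have h1 : ((T K N).filter (fun z => a z ∉ A)).card ≤ (Icc 1 n \ A).card := by
    apply card_le_card_of_injOn a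
    · intro z hz
      simp only [coe_filter, Set.mem_ofPred_eq] at hz
      obtain ⟨h0, hlt, hn⟩ := hba z hz.1
      simp only [coe_sdiff, coe_Icc, Set.mem_diff, Set.mem_Icc, mem_coe]
      exact ⟨⟨by omega, hn⟩, hz.2⟩
    · rintro ⟨p, r, t⟩ hz ⟨p', r', t'⟩ hz' h
      simp only [coe_filter, Set.mem_ofPred_eq] at hz hz'
      obtain ⟨hp, hr, hrp, hs, ht, -⟩ := mem_T hz.1
      obtain ⟨hp', hr', hrp', hs', ht', -⟩ := mem_T hz'.1
      obtain ⟨e1, e2, e3⟩ := key_inj hp hr hrp hs hp' hr' hrp' hs' (Nat.mul_pos hp.pos ht)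
        (Nat.mul_pos hp'.pos ht') h
      simp only at e1 e2 e3 hp
      subst e1 e2
      rw [Nat.eq_of_mul_eq_mul_left hp.pos e3]
  have h2 : ((T K N).filter (fun z => b z ∉ A)).card ≤ (Icc 1 n \ A).card := by
    apply card_le_card_of_injOn b
    · intro z hz
      simp only [coe_filter, Set.mem_ofPred_eq] at hz
      obtain ⟨h0, hlt, hn⟩ := hba z hz.1
      simp only [coe_sdiff, coe_Icc, Set.mem_diff, Set.mem_Icc, mem_coe]
      exact ⟨⟨by omega, by omega⟩, hz.2⟩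
    · rintro ⟨p, r, t⟩ hz ⟨p', r', t'⟩ hz' h
      simp only [coe_filter, Set.mem_ofPred_eq] at hz hz'
      obtain ⟨hp, hr, hrp, hs, ht, -⟩ := mem_T hz.1
      obtain ⟨hp', hr', hrp', hs', ht', -⟩ := mem_T hz'.1
      obtain ⟨e1, e2, e3⟩ := key_inj hp hr hrp hs hp' hr' hrp' hs' (Nat.mul_pos hr ht)
        (Nat.mul_pos hr' ht') h
      simp only at e1 e2 e3 hr
      subst e1 e2
      rw [Nat.eq_of_mul_eq_mul_left hr e3]
  have := (card_le_card hcover).trans (card_union_le _ _)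
  omega

lemma card_T_ge {K N : ℕ} (hN : K ^ 2 ≤ N) :
    (N : ℝ) / 16 * ∑ p ∈ (range K).filter Nat.Prime, (1 / (p : ℝ)) ≤ (T K N).card := by
  rw [T, card_sigma, Finset.mul_sum]
  push_cast
  refine Finset.sum_le_sum fun p hp => ?_
  simp only [mem_filter, mem_range] at hp
  rw [card_product, Nat.card_Icc, Nat.add_sub_cancel]
  push_cast
  have h2 := hp.2.two_le
  have h1 := sqf_count (p - 1)
  rw [Nat.cast_sub (by omega)] at h1
  have hp2 : p ^ 2 ≤ N := le_trans (Nat.pow_le_pow_left hp.1.le 2) hN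
  have hpos : 0 < p ^ 2 := by positivity
  have h3 : N ≤ 2 * (p ^ 2 * (N / p ^ 2)) := by
    have a1 := Nat.div_add_mod N (p ^ 2)
    have a2 := Nat.mod_lt N hpos
    have a3 : 1 ≤ N / p ^ 2 := (Nat.le_div_iff_mul_le hpos).2 (by omega)
    have a4 : p ^ 2 * 1 ≤ p ^ 2 * (N / p ^ 2) := Nat.mul_le_mul_left _ a3
    omega
  have h3' : (N : ℝ) ≤ 2 * ((p : ℝ) ^ 2 * ((N / p ^ 2 : ℕ) : ℝ)) := by exact_mod_cast h3
  have h2' : (2 : ℝ) ≤ p := by exact_mod_cast h2
  have hq : (0 : ℝ) ≤ ((N / p ^ 2 : ℕ) : ℝ) := Nat.cast_nonneg _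
  generalize ((N / p ^ 2 : ℕ) : ℝ) = q at *
  calc (N : ℝ) / 16 * (1 / (p : ℝ)) ≤ 2 * ((p : ℝ) ^ 2 * q) / 16 * (1 / (p : ℝ)) := by gcongr
    _ = (p / 8) * q := by field_simp; ring
    _ ≤ ((p - ((1 : ℕ) : ℝ)) / 4) * q := by
        apply mul_le_mul_of_nonneg_right _ hq
        push_cast; linarith
    _ ≤ _ := mul_le_mul_of_nonneg_right h1 hq

lemma bigF_le {K N n : ℕ} (hN : N ^ 2 ≤ n) :
    ((T K N).card : ℝ) / 2 ≤ (n : ℝ) - bigF 2 4 n := by
  classical
  have hne : ((Icc 1 n).powerset.filter (AdmDistinct 2 4)).Nonempty :=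
    ⟨∅, by
      simp only [mem_filter, mem_powerset, empty_subset, true_and]
      intro B hB hc
      rw [subset_empty.1 hB] at hc
      simp at hc⟩
  obtain ⟨A, hA, hs⟩ := Finset.exists_mem_eq_sup _ hne Finset.card
  have hF : bigF 2 4 n = A.card := hs
  simp only [mem_filter, mem_powerset] at hA
  have h1 := card_T_le (K := K) hN hA.2
  have h2 := card_sdiff_add_card_eq_card hA.1
  rw [Nat.card_Icc, Nat.add_sub_cancel] at h2
  have h3 : ((T K N).card : ℝ) ≤ 2 * (Icc 1 n \ A).card := by exact_mod_cast h1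
  have h4 : ((Icc 1 n \ A).card : ℝ) + A.card = n := by exact_mod_cast h2
  rw [hF]; linarith

lemma prime_sum (C : ℝ) : ∃ K : ℕ, C ≤ ∑ p ∈ (range K).filter Nat.Prime, (1 / (p : ℝ)) := by
  have h := (not_summable_iff_tendsto_nat_atTop_of_nonneg (fun n => Set.indicator_nonneg
    (fun _ _ => by positivity) n)).1 not_summable_one_div_on_primes
  obtain ⟨K, hK⟩ := (h.eventually_ge_atTop C).exists
  refine ⟨K, hK.trans (le_of_eq ?_)⟩
  rw [Finset.sum_filter]
  refine Finset.sum_congr rfl fun p _ => ?_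
  simp only [Set.indicator_apply, Set.mem_ofPred_eq]

lemma main (C : ℝ) : ∀ᶠ n : ℕ in atTop, C * Real.sqrt n ≤ (n : ℝ) - bigF 2 4 n := by
  obtain ⟨K, hK⟩ := prime_sum (64 * |C|)
  filter_upwards [eventually_ge_atTop ((K ^ 2 + 1) ^ 2)] with n hn
  have h1 : K ^ 2 + 1 ≤ Nat.sqrt n := Nat.le_sqrt'.2 hn
  have h2 := bigF_le (K := K) (Nat.sqrt_le' n)
  have h3 := card_T_ge (K := K) (N := Nat.sqrt n) (by omega)
  have h4 : Real.sqrt n ≤ 2 * (Nat.sqrt n : ℝ) := by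
    have a1 : Real.sqrt n < Nat.sqrt n + 1 := Real.real_sqrt_lt_nat_sqrt_succ
    have a2 : (1 : ℝ) ≤ Nat.sqrt n := by exact_mod_cast (by omega : 1 ≤ Nat.sqrt n)
    linarith
  have h5 : (Nat.sqrt n : ℝ) / 16 * (64 * |C|) ≤ (T K (Nat.sqrt n)).card :=
    le_trans (mul_le_mul_of_nonneg_left hK (by positivity)) h3
  have h6 : C * Real.sqrt n ≤ |C| * (2 * (Nat.sqrt n : ℝ)) :=
    mul_le_mul (le_abs_self C) h4 (Real.sqrt_nonneg _) (abs_nonneg C)
  linarith

theorem result :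
    (∀ C : ℝ, ∀ᶠ n : ℕ in atTop, C * Real.sqrt n ≤ (n : ℝ) - bigF 2 4 n) ∧
    ¬ ∀ k d : ℕ, 1 < k → k < d → 4 ≤ d → ∃ c C : ℝ, 0 < c ∧ c ≤ C ∧ ∀ᶠ n : ℕ in atTop,
      c * (n : ℝ) ^ ((k : ℝ) / d) ≤ (n : ℝ) - bigF k d n ∧
      (n : ℝ) - bigF k d n ≤ (n : ℝ) - smallF k d n ∧
      (n : ℝ) - smallF k d n ≤ C * (n : ℝ) ^ ((k : ℝ) / d) := by
  refine ⟨main, fun h => ?_⟩
  obtain ⟨c, C, hc, hcC, hev⟩ := h 2 4 (by norm_num) (by norm_num) le_rfl
  obtain ⟨n, ⟨h1, h2, h3⟩, h4, h5⟩ :=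
    (hev.and ((main (C + 1)).and (eventually_ge_atTop 1))).exists
  have e : (n : ℝ) ^ (((2 : ℕ) : ℝ) / ((4 : ℕ) : ℝ)) = Real.sqrt n := by
    rw [Real.sqrt_eq_rpow]; norm_num
  rw [e] at h3
  have : 0 < Real.sqrt n := Real.sqrt_pos.2 (by exact_mod_cast h5)
  linarith

end Pool.Agent.Results.MP_5e019f_nt.LogFactor
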